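import Pool.Agent.KS6_71.AP.Embed
import Pool.Agent.KS6_71.AP.Small
import Pool.Agent.KS6_71.AP.Spread

/-!
# MP_efcf90_co: which finite additive posets have a rank

* A finite additive poset has a rank if and only if it embeds in an additive powerset `2^I_f`
  (the converse of the known sufficient condition).
* The order of a finite additive poset is a power of two. Every additive poset of order `2 ^ n` has
  a rank if and only if `n ≤ 3`: the smallest additive posets without a rank have 16 elements, and
  for every `n ≥ 4` there is one with `2 ^ n` elements.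
-/

namespace Pool.Agent.Results.MP_efcf90_co.Sharp

open Pool.Agent.KS6_71.AP

theorem rank_iff_separated (A : Type) [AddCommGroup A] [PartialOrder A] [Finite A]
    (h : IsAdditivePoset A) : (∃ r : A → ℕ, IsRank r) ↔ Separated A := by
  classical
  let _ : Fintype A := Fintype.ofFinite _
  have : Finite (A →+ ZMod 2) := DFunLike.finite _
  let _ : Fintype (A →+ ZMod 2) := Fintype.ofFinite _
  constructor
  · rintro ⟨r, hr⟩
    exact separated_of_rank h r hr
  · intro hsep
    exact ⟨chRank A, rank_of_separated hsep⟩

/-- The order of a finite additive poset is a power of two. -/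
theorem card_eq (A : Type) [AddCommGroup A] [PartialOrder A] [Finite A]
    (h : IsAdditivePoset A) : ∃ n : ℕ, Nat.card A = 2 ^ n := by
  let _ : Module (ZMod 2) A := AddCommGroup.zmodModule fun x => by
    rw [two_nsmul]
    exact two_eq_zero h x
  have : Module.Finite (ZMod 2) A := inferInstance
  refine ⟨Module.finrank (ZMod 2) A, ?_⟩
  have h1 := Module.natCard_eq_pow_finrank (K := ZMod 2) (V := A)
  rw [h1, Nat.card_zmod]

/-- **Theorem.** (1) A finite additive poset has `2 ^ n` elements for some `n`, and it has a rank if
and only if it has an injective morphism to a restricted additive powerset. (2) Every additive poset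
with `2 ^ n` elements has a rank if and only if `n ≤ 3`. -/
theorem result :
    (∀ (A : Type) [AddCommGroup A] [PartialOrder A] [Finite A], IsAdditivePoset A →
      (∃ n : ℕ, Nat.card A = 2 ^ n) ∧ ((∃ r : A → ℕ, IsRank r) ↔ EmbedsInPowerset A)) ∧
    (∀ n : ℕ, (∀ (A : Type) [AddCommGroup A] [PartialOrder A], IsAdditivePoset A →
      Nat.card A = 2 ^ n → ∃ r : A → ℕ, IsRank r) ↔ n ≤ 3) := by
  refine ⟨?_, ?_⟩
  · intro A _ _ _ h
    refine ⟨card_eq A h, ?_⟩
    rw [rank_iff_separated A h]
    exact ⟨embeds_of_separated h, separated_of_embeds⟩
  · intro n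
    constructor
    · intro hall
      by_contra hn
      obtain ⟨m, rfl⟩ : ∃ m, n = 4 + m := ⟨n - 4, by omega⟩
      let _ := ordM m
      obtain ⟨r, hr⟩ := hall (BM m) (isAdditivePoset_BM m) (card_BM m)
      exact not_separated_BM m
        ((rank_iff_separated (BM m) (isAdditivePoset_BM m)).1 ⟨r, hr⟩)
    · intro hn A _ _ h hcard
      have hfin : Finite A := Nat.finite_of_card_ne_zero (by rw [hcard]; positivity)
      let _ : Fintype A := Fintype.ofFinite _
      rw [rank_iff_separated A h]
      apply separated_of_card h
      rw [← Nat.card_eq_fintype_card, hcard]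
      calc 2 ^ n ≤ 2 ^ 3 := Nat.pow_le_pow_right (by norm_num) hn
        _ = 8 := by norm_num

end Pool.Agent.Results.MP_efcf90_co.Sharp
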